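import Pool.Agent.Lib.helper16.KcD

set_option autoImplicit false
open MeasureTheory Set
open scoped ENNReal

namespace Pool.Agent.Results.MP_60620c_an.Exists

abbrev Plane := EuclideanSpace ℝ (Fin 2)

/-- the double of the segment `[p, q]`: its image under the dilation by 2 about its midpoint -/
def double (p q : Plane) : Set Plane :=
  (fun x => midpoint ℝ p q + (2 : ℝ) • (x - midpoint ℝ p q)) '' segment ℝ p q

theorem result : ∃ (S : Set ℝ) (p q : ℝ → Plane), S ⊆ cantorSet ∧
    (∀ s ∈ S, dist (p s) (q s) = 1 ∧ q s 1 - p s 1 = s * (q s 0 - p s 0)) ∧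
    volume (⋃ s ∈ S, segment ℝ (p s) (q s)) = 0 ∧
    0 < volume (⋃ s ∈ S, double (p s) (q s)) := by
  obtain ⟨S, β, hS, h0, Z, hZ, hc⟩ := Pool.Agent.Lib.helper16.KcD.main
  have mp : MeasurePreserving (fun x : Plane => (x 0, x 1)) :=
    (volume_preserving_finTwoArrow ℝ).comp (PiLp.volume_preserving_ofLp (Fin 2))
  have hle : ∀ T : Set (ℝ × ℝ), volume ((fun x : Plane => (x 0, x 1)) ⁻¹' T) ≤ volume T := by
    intro T
    have := Measure.le_map_apply mp.measurable.aemeasurable (μ := volume) T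
    rwa [mp.map_eq] at this
  let l : ℝ → ℝ := fun s => 1 / √(1 + s ^ 2)
  have hl : ∀ s ∈ S, 2 / 3 ≤ l s ∧ l s ≤ 1 ∧ l s ^ 2 * (1 + s ^ 2) = 1 := by
    intro s hs
    obtain ⟨s0, s1⟩ := cantorSet_subset_unitInterval (hS hs)
    have h1 : 1 ≤ √(1 + s ^ 2) := Real.one_le_sqrt.2 (by nlinarith)
    have h2 : √(1 + s ^ 2) ≤ 3 / 2 := Real.sqrt_le_iff.2 ⟨by norm_num, by nlinarith⟩
    refine ⟨?_, ?_, ?_⟩
    · simp only [l]; rw [le_div_iff₀ (by linarith)]; linarith
    · simp only [l]; rw [div_le_one (by linarith)]; exact h1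
    · simp only [l]; rw [div_pow, Real.sq_sqrt (by positivity)]; field_simp
  refine ⟨S, fun s => !₂[1 / 3, s * (1 / 3) + β s], fun s => !₂[1 / 3 + l s, s * (1 / 3 + l s) + β s],
    hS, fun s hs => ⟨?_, ?_⟩, ?_, ?_⟩
  · rw [EuclideanSpace.dist_eq, Fin.sum_univ_two, Real.sqrt_eq_one]
    simp only [Real.dist_eq, sq_abs]
    simp
    linear_combination (hl s hs).2.2
  · simp; ring
  · refine le_antisymm (le_trans (measure_mono ?_) ((hle _).trans h0.le)) zero_le
    intro z hz
    obtain ⟨s, hs, a, b, ha, hb, hab, rfl⟩ := mem_iUnion₂.1 hz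
    obtain ⟨l1, l2, -⟩ := hl s hs
    obtain rfl : a = 1 - b := by linarith
    refine ⟨?_, s, hs, ?_⟩
    · simp only [PiLp.add_apply, PiLp.smul_apply, smul_eq_mul, Matrix.cons_val_zero]
      constructor <;> nlinarith
    · simp; ring
  · have h1 : (fun x : Plane => (x 0, x 1)) ⁻¹' (Icc (0 : ℝ) (1 / 6) ×ˢ Icc (0 : ℝ) 1) ⊆
        (⋃ s ∈ S, double !₂[1 / 3, s * (1 / 3) + β s] !₂[1 / 3 + l s, s * (1 / 3 + l s) + β s]) ∪
          (fun x : Plane => (x 0, x 1)) ⁻¹' Z := by
      intro z hz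
      by_cases hzZ : (z 0, z 1) ∈ Z
      · exact Or.inr hzZ
      obtain ⟨s, hs, h⟩ := hc _ hz hzZ
      obtain ⟨l1, l2, -⟩ := hl s hs
      have hx0 : 0 ≤ z 0 := hz.1.1
      have hx1 : z 0 ≤ 1 / 6 := hz.1.2
      have hl0 : 0 < l s := by linarith
      set t := (z 0 - 1 / 3 + l s / 2) / (2 * l s) with ht
      have t0 : 0 ≤ t := div_nonneg (by linarith) (by linarith)
      have t1 : t ≤ 1 := by rw [ht, div_le_one (by linarith)]; linarith
      have t2 : t * (2 * l s) = z 0 - 1 / 3 + l s / 2 := by rw [ht]; field_simp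
      refine Or.inl (mem_iUnion₂.2 ⟨s, hs, _, ⟨1 - t, t, by linarith, t0, by ring, rfl⟩, ?_⟩)
      simp only at h
      ext i
      fin_cases i
      · simp [midpoint_eq_smul_add]; linear_combination t2
      · simp [midpoint_eq_smul_add]; linear_combination s * t2 - h
    have h2 := (measure_mono (μ := volume) h1).trans (measure_union_le _ _)
    rw [mp.measure_preimage (measurableSet_Icc.prod measurableSet_Icc).nullMeasurableSet,
      Measure.volume_eq_prod, Measure.prod_prod, Real.volume_Icc, Real.volume_Icc] at h2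
    rw [pos_iff_ne_zero]
    intro h3
    rw [h3, zero_add] at h2
    have h4 := h2.trans ((hle Z).trans hZ)
    rw [← ENNReal.ofReal_mul (by norm_num), ENNReal.ofReal_le_ofReal_iff (by norm_num)] at h4
    norm_num at h4

end Pool.Agent.Results.MP_60620c_an.Exists
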